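import Mathlib

/-!
Random polytopes in products of smooth convex bodies, problem MP_5ec613_pr.
Definitions and exact statements of the parts (Props `S_*`).
-/

set_option autoImplicit false

open MeasureTheory Set Module
open scoped ENNReal

namespace Pool.Agent.W829.RP

/-- The Euclidean space of dimension `k`. -/
abbrev E (k : ℕ) : Type := EuclideanSpace ℝ (Fin k)

section General

variable {V : Type} [NormedAddCommGroup V] [NormedSpace ℝ V]

/-- Convex bodies: compact convex sets with nonempty interior. -/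
def IsBody (K : Set V) : Prop := Convex ℝ K ∧ IsCompact K ∧ (interior K).Nonempty

/-- The convex hull of the points `ω 0, …, ω (n-1)`. -/
def hull {n : ℕ} (ω : Fin n → V) : Set V := convexHull ℝ (range ω)

/-- The `j`-dimensional faces of `P`: nonempty exposed subsets of dimension `j`. -/
def faces (j : ℕ) (P : Set V) : Set (Set V) :=
  {F | F.Nonempty ∧ IsExposed ℝ P F ∧ finrank ℝ (vectorSpan ℝ F) = j}

/-- The part of `K` in the closed half space `{x | s ≤ ℓ x}`. -/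
def cap (K : Set V) (ℓ : V →L[ℝ] ℝ) (s : ℝ) : Set V := {x | x ∈ K ∧ s ≤ ℓ x}

/-- The Macbeath region of `K` at `y` with factor `r`. -/
def mac (K : Set V) (y : V) (r : ℝ) : Set V := {z | ∃ p : V, z = y + r • p ∧ y + p ∈ K ∧ y - p ∈ K}

/-- General position: any `dim V + 1` of the points are affinely independent. -/
def GenPos {n : ℕ} (ω : Fin n → V) : Prop :=
  ∀ τ : Fin (finrank ℝ V + 1) ↪ Fin n, AffineIndependent ℝ (ω ∘ τ)

/-- The sets of `j + 1` indices whose points lie on a common supporting hyperplane of all the points. -/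
def supp {n : ℕ} (j : ℕ) (ω : Fin n → V) : Set (Finset (Fin n)) :=
  {σ | σ.card = j + 1 ∧ ∃ (ℓ : V →L[ℝ] ℝ) (s : ℝ), ℓ ≠ 0 ∧ (∀ i ∈ σ, ℓ (ω i) = s) ∧ ∀ i, ℓ (ω i) ≤ s}

variable [MeasureSpace V]

/-- The uniform probability distribution on `K`. -/
noncomputable def unif (K : Set V) : Measure V := (volume K)⁻¹ • volume.restrict K

/-- The law of `n` independent uniform points of `K`. -/
noncomputable def samp (K : Set V) (n : ℕ) : Measure (Fin n → V) := Measure.pi fun _ => unif K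

/-- The expected number of `j`-dimensional faces of the random polytope. -/
noncomputable def meanFaces (K : Set V) (n j : ℕ) : ℝ≥0∞ :=
  ∫⁻ ω, ((faces j (hull ω)).encard : ℝ≥0∞) ∂(samp K n)

/-- The expected volume of the random polytope. -/
noncomputable def meanVol (K : Set V) (n : ℕ) : ℝ≥0∞ := ∫⁻ ω, volume (hull ω) ∂(samp K n)

/-- The expected volume of the part of `K` outside the random polytope. -/
noncomputable def miss (K : Set V) (n : ℕ) : ℝ≥0∞ := ∫⁻ ω, volume (K \ hull ω) ∂(samp K n)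

/-- `v_K(x)`: the infimum of the volumes of the caps with `x` on their hyperplane. -/
noncomputable def vf (K : Set V) (x : V) : ℝ≥0∞ := ⨅ ℓ : V →L[ℝ] ℝ, volume (cap K ℓ (ℓ x))

/-- The wet part `K(t)`: points of caps of volume less than `t`. -/
def wet (K : Set V) (t : ℝ≥0∞) : Set V := {x | x ∈ K ∧ vf K x < t}

/-- A cap `cap K ℓ s` of volume between `t/2` and `t` with its centre `y`. -/
structure Good (K : Set V) (t : ℝ) (y : V) (ℓ : V →L[ℝ] ℝ) (s : ℝ) : Prop where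
  norm : ‖ℓ‖ = 1
  lo : ENNReal.ofReal (t / 2) ≤ volume (cap K ℓ s)
  hi : volume (cap K ℓ s) ≤ ENNReal.ofReal t
  sub : cap K ℓ s ⊆ mac K y (4 * (finrank ℝ V + 1))
  sup : mac K y 1 ⊆ cap K ℓ s
  mid : 2 * ℓ y = s + sSup (ℓ '' K)

end General

/-- Convex bodies with twice differentiable boundary and positive Gaussian curvature: `K` is the
sublevel set `{f ≤ 0}` of a twice differentiable function whose derivative does not vanish on the
boundary and whose second derivative is positive definite on the tangent spaces of the boundary. -/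
def PosCurved {k : ℕ} (K : Set (E k)) : Prop :=
  IsBody K ∧ ∃ f : E k → ℝ, Differentiable ℝ f ∧ Differentiable ℝ (fderiv ℝ f) ∧ K = {x | f x ≤ 0} ∧
    ∀ x, f x = 0 → fderiv ℝ f x ≠ 0 ∧
      ∀ v : E k, fderiv ℝ f x v = 0 → v ≠ 0 → 0 < fderiv ℝ (fderiv ℝ f) x v v

/-- `a n ≍ b n`. -/
def Comparable (a b : ℕ → ℝ≥0∞) : Prop :=
  ∃ c C : ℝ, 0 < c ∧ 0 < C ∧ ∃ n0 : ℕ, ∀ n : ℕ, n0 ≤ n →
    ENNReal.ofReal c * b n ≤ a n ∧ a n ≤ ENNReal.ofReal C * b n

/-! ### The parts -/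

/-- scaling of caps -/
def S_SC : Prop := ∀ (V : Type) [NormedAddCommGroup V] [NormedSpace ℝ V] [FiniteDimensional ℝ V]
  [MeasureSpace V] [BorelSpace V] [(volume : Measure V).IsAddHaarMeasure] (K : Set V), IsBody K →
  ∀ (ℓ : V →L[ℝ] ℝ) (z : V), z ∈ K → (∀ y ∈ K, ℓ y ≤ ℓ z) → ∀ r δ : ℝ, 0 ≤ r → r ≤ 1 → 0 ≤ δ →
    ENNReal.ofReal (r ^ finrank ℝ V) * volume (cap K ℓ (ℓ z - δ)) ≤ volume (cap K ℓ (ℓ z - r * δ))

/-- parallel caps of every volume -/
def S_CV : Prop := ∀ (V : Type) [NormedAddCommGroup V] [NormedSpace ℝ V] [FiniteDimensional ℝ V]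
  [MeasureSpace V] [BorelSpace V] [(volume : Measure V).IsAddHaarMeasure] (K : Set V), IsBody K →
  ∀ (ℓ : V →L[ℝ] ℝ), ℓ ≠ 0 → ∀ (s : ℝ) (τ : ℝ≥0∞),
    (volume (cap K ℓ s) ≤ τ → τ ≤ volume K → ∃ s' ≤ s, volume (cap K ℓ s') = τ) ∧
    (τ ≤ volume (cap K ℓ s) → ∃ s' ≥ s, volume (cap K ℓ s') = τ)

/-- a centre of a compact convex set -/
def S_RAD : Prop := ∀ (V : Type) [NormedAddCommGroup V] [NormedSpace ℝ V] [FiniteDimensional ℝ V]
  (B : Set V), Convex ℝ B → IsCompact B → B.Nonempty → 1 ≤ finrank ℝ V →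
  ∃ b ∈ B, ∀ x ∈ B, b + ((finrank ℝ V : ℝ)⁻¹) • (b - x) ∈ B

/-- every small cap is comparable to a Macbeath region -/
def S_REG : Prop := ∀ (V : Type) [NormedAddCommGroup V] [NormedSpace ℝ V] [FiniteDimensional ℝ V]
  [MeasureSpace V] [BorelSpace V] [(volume : Measure V).IsAddHaarMeasure] (K : Set V), IsBody K →
  1 ≤ finrank ℝ V → ∀ (ℓ : V →L[ℝ] ℝ) (s : ℝ), 0 < volume (cap K ℓ s) →
    ENNReal.ofReal (2 ^ finrank ℝ V) * volume (cap K ℓ s) < volume K →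
    ∃ y : V, cap K ℓ s ⊆ mac K y (4 * (finrank ℝ V + 1)) ∧ mac K y 1 ⊆ cap K ℓ s ∧
      2 * ℓ y = s + sSup (ℓ '' K)

/-- overlapping Macbeath regions are comparable -/
def S_ELR : Prop := ∀ (V : Type) [NormedAddCommGroup V] [NormedSpace ℝ V] (K : Set V), Convex ℝ K →
  ∀ x y : V, (mac K x (1 / 5) ∩ mac K y (1 / 5)).Nonempty →
    ∀ μ : ℝ, 0 ≤ μ → mac K y μ ⊆ mac K x ((1 + 3 * μ) / 2)

/-- the economic cap covering -/
def S_COV : Prop := ∀ (V : Type) [NormedAddCommGroup V] [NormedSpace ℝ V] [FiniteDimensional ℝ V]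
  [MeasureSpace V] [BorelSpace V] [(volume : Measure V).IsAddHaarMeasure] (K : Set V), IsBody K →
  1 ≤ finrank ℝ V → ∀ t : ℝ, 0 < t → ENNReal.ofReal (2 ^ finrank ℝ V * t) < volume K →
  ∃ (N : ℕ) (y : Fin N → V) (ℓ : Fin N → V →L[ℝ] ℝ) (s : Fin N → ℝ),
    (∀ i, Good K t (y i) (ℓ i) (s i)) ∧
    (∀ i j, i ≠ j → Disjoint (mac K (y i) (1 / 5)) (mac K (y j) (1 / 5))) ∧
    ∀ (ℓ' : V →L[ℝ] ℝ) (s' : ℝ), ENNReal.ofReal (t / 2) ≤ volume (cap K ℓ' s') →
      volume (cap K ℓ' s') ≤ ENNReal.ofReal t →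
      ∃ i, cap K ℓ' s' ⊆ mac K (y i) (6 * finrank ℝ V + 7) ∧ ∀ x ∈ mac K (y i) (1 / 5), s' < ℓ' x

/-- `v_K` is measurable -/
def S_VM : Prop := ∀ (V : Type) [NormedAddCommGroup V] [NormedSpace ℝ V] [FiniteDimensional ℝ V]
  [MeasureSpace V] [BorelSpace V] [(volume : Measure V).IsAddHaarMeasure] (K : Set V), IsBody K →
  Measurable (vf K)

/-- the incidence set of the convex hull is closed -/
def S_HC : Prop := ∀ (V : Type) [NormedAddCommGroup V] [NormedSpace ℝ V] [FiniteDimensional ℝ V]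
  (n : ℕ), IsClosed {p : V × (Fin n → V) | p.1 ∈ hull p.2}

/-- lower bound for the missed volume -/
def S_LOW : Prop := ∀ (V : Type) [NormedAddCommGroup V] [NormedSpace ℝ V] [FiniteDimensional ℝ V]
  [MeasureSpace V] [BorelSpace V] [(volume : Measure V).IsAddHaarMeasure] (K : Set V), IsBody K →
  ∀ (n : ℕ) (t : ℝ≥0∞), t ≤ volume K → (1 - t / volume K) ^ n * volume (wet K t) ≤ miss K n

/-- the missed volume is the volume deficit -/
def S_DEF : Prop := ∀ (V : Type) [NormedAddCommGroup V] [NormedSpace ℝ V] [FiniteDimensional ℝ V]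
  [MeasureSpace V] [BorelSpace V] [(volume : Measure V).IsAddHaarMeasure] (K : Set V), IsBody K →
  ∀ n : ℕ, volume K - meanVol K n = miss K n

/-- Efron's inequality -/
def S_EFR : Prop := ∀ (V : Type) [NormedAddCommGroup V] [NormedSpace ℝ V] [FiniteDimensional ℝ V]
  [MeasureSpace V] [BorelSpace V] [(volume : Measure V).IsAddHaarMeasure] (K : Set V), IsBody K →
  ∀ n : ℕ, ((n : ℝ≥0∞) + 1) * (miss K n / volume K) ≤ meanFaces K (n + 1) 0

/-- random points are in general position -/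
def S_GP : Prop := ∀ (V : Type) [NormedAddCommGroup V] [NormedSpace ℝ V] [FiniteDimensional ℝ V]
  [MeasureSpace V] [BorelSpace V] [(volume : Measure V).IsAddHaarMeasure] (K : Set V), IsBody K →
  ∀ n : ℕ, ∀ᵐ ω ∂(samp K n), GenPos ω

/-- every vertex lies in a `j`-face, every `j`-face has `j + 1` vertices -/
def S_DET : Prop := ∀ (V : Type) [NormedAddCommGroup V] [NormedSpace ℝ V] [FiniteDimensional ℝ V]
  (n j : ℕ), j < finrank ℝ V → finrank ℝ V + 1 ≤ n → ∀ ω : Fin n → V, GenPos ω →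
  (faces 0 (hull ω)).encard ≤ (j + 1 : ℕ) * (faces j (hull ω)).encard

/-- `j`-faces inject into supported sets of `j + 1` points -/
def S_FUP : Prop := ∀ (V : Type) [NormedAddCommGroup V] [NormedSpace ℝ V] [FiniteDimensional ℝ V]
  (n j : ℕ), j < finrank ℝ V → finrank ℝ V + 1 ≤ n → ∀ ω : Fin n → V, GenPos ω →
  (faces j (hull ω)).encard ≤ (supp j ω).encard

/-- the union bound -/
def S_UB : Prop := ∀ (V : Type) [NormedAddCommGroup V] [NormedSpace ℝ V] [FiniteDimensional ℝ V]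
  [MeasureSpace V] [BorelSpace V] [(volume : Measure V).IsAddHaarMeasure] (K : Set V), IsBody K →
  ∀ (I : Type) [Fintype I] (S B : I → Set V), (∀ i, MeasurableSet (S i)) →
    (∀ i, MeasurableSet (B i)) → (∀ i, S i ⊆ K) →
    (∀ (ℓ : V →L[ℝ] ℝ) (s : ℝ), ℓ ≠ 0 → ∃ i, cap K ℓ s ⊆ B i ∧ ∀ x ∈ S i, s < ℓ x) →
    ∀ n j : ℕ, ∫⁻ ω, ((supp j ω).encard : ℝ≥0∞) ∂(samp K n) ≤
      (n.choose (j + 1)) * ∑ i, (volume (B i ∩ K) / volume K) ^ (j + 1) *
        (1 - volume (S i) / volume K) ^ (n - (j + 1))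

/-- Doubling of the wet part. -/
def Doubling {V : Type} [NormedAddCommGroup V] [NormedSpace ℝ V] [MeasureSpace V] (K : Set V) : Prop :=
  ∃ A b : ℝ, 0 < A ∧ 0 < b ∧ ∀ t r : ℝ, 0 < t → 1 ≤ r →
    volume (wet K (ENNReal.ofReal (r * t))) ≤
      ENNReal.ofReal (A * r ^ b) * volume (wet K (ENNReal.ofReal t))

/-- the upper bound for the face numbers -/
def S_UP : Prop := ∀ (V : Type) [NormedAddCommGroup V] [NormedSpace ℝ V] [FiniteDimensional ℝ V]
  [MeasureSpace V] [BorelSpace V] [(volume : Measure V).IsAddHaarMeasure] (K : Set V), IsBody K →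
  Doubling K → ∀ j : ℕ, j < finrank ℝ V → ∃ (C : ℝ) (n0 : ℕ), 0 < C ∧ ∀ n : ℕ, n0 ≤ n →
    meanFaces K n j ≤ ENNReal.ofReal C * n * volume (wet K (volume K / n))

/-- the function `v` of a product -/
def S_PV : Prop := ∀ (m : ℕ) (d : Fin m → ℕ), 1 ≤ m → (∀ i, 1 ≤ d i) →
  ∀ K : ∀ i, Set (E (d i)), (∀ i, IsBody (K i)) → ∀ x : ∀ i, E (d i), x ∈ Set.pi univ K →
    vf (Set.pi univ K) x ≤ ENNReal.ofReal (m ^ (∑ i, d i)) * ∏ i, vf (K i) (x i) ∧
    ∏ i, vf (K i) (x i) ≤ ENNReal.ofReal (m ^ (∑ i, d i)) * vf (Set.pi univ K) x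

/-- comparison of distributions of products -/
def S_PM : Prop := ∀ (m : ℕ) (X Y : Fin m → Type) [∀ i, MeasurableSpace (X i)]
  [∀ i, MeasurableSpace (Y i)] (μ : ∀ i, Measure (X i)) (ν : ∀ i, Measure (Y i))
  [∀ i, IsFiniteMeasure (μ i)] [∀ i, IsFiniteMeasure (ν i)]
  (f : ∀ i, X i → ℝ≥0∞) (g : ∀ i, Y i → ℝ≥0∞) (A : Fin m → ℝ≥0∞),
  (∀ i, Measurable (f i)) → (∀ i, Measurable (g i)) → (∀ i x, f i x < ⊤) → (∀ i y, g i y < ⊤) →
  (∀ i, A i < ⊤) → (∀ i (s : ℝ≥0∞), μ i {x | f i x < s} ≤ A i * ν i {y | g i y < s}) →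
  ∀ t : ℝ≥0∞, Measure.pi μ {x | ∏ i, f i (x i) < t} ≤ (∏ i, A i) * Measure.pi ν {y | ∏ i, g i (y i) < t}

/-- first sum over an economic covering -/
def S_C1 : Prop := ∀ (V : Type) [NormedAddCommGroup V] [NormedSpace ℝ V] [FiniteDimensional ℝ V]
  [MeasureSpace V] [BorelSpace V] [(volume : Measure V).IsAddHaarMeasure] (K : Set V), IsBody K →
  1 ≤ finrank ℝ V → ∃ C t1 : ℝ, 0 < C ∧ 0 < t1 ∧ ∀ t : ℝ, 0 < t → t ≤ t1 →
  ∀ (N : ℕ) (y : Fin N → V) (ℓ : Fin N → V →L[ℝ] ℝ) (s : Fin N → ℝ),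
    (∀ i, Good K t (y i) (ℓ i) (s i)) →
    (∀ i j, i ≠ j → Disjoint (mac K (y i) (1 / 5)) (mac K (y j) (1 / 5))) →
    ∑ i, t / (sSup (ℓ i '' K) - s i) ≤ C

/-- second sum over an economic covering -/
def S_C2 : Prop := ∀ (k : ℕ) (K : Set (E k)), IsBody K → 1 ≤ k →
  ∃ C t1 : ℝ, 0 < C ∧ 0 < t1 ∧ ∀ t : ℝ, 0 < t → t ≤ t1 →
  ∀ (N : ℕ) (y : Fin N → E k) (ℓ : Fin N → E k →L[ℝ] ℝ) (s : Fin N → ℝ),
    (∀ i, Good K t (y i) (ℓ i) (s i)) →
    (∀ i j, i ≠ j → Disjoint (mac K (y i) (1 / 5)) (mac K (y j) (1 / 5))) →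
    ∑ i, (sSup (ℓ i '' K) - s i) ^ k / t ≤ C

/-- volume of the polar body -/
def S_POL : Prop := ∀ k : ℕ, 1 ≤ k → ∃ c : ℝ, 0 < c ∧ ∀ M : Set (E k), IsBody M →
  (∀ x ∈ M, -x ∈ M) →
  ENNReal.ofReal c ≤ volume M * volume {g : E k | ∀ w ∈ M, |inner ℝ g w| ≤ 1}

/-- upper bound for the wet part of a single body -/
def S_FU : Prop := ∀ (k : ℕ) (K : Set (E k)), IsBody K → 1 ≤ k → ∃ C : ℝ, 0 < C ∧
  ∀ s : ℝ, 0 < s → volume (wet K (ENNReal.ofReal s)) ≤ ENNReal.ofReal (C * s ^ (2 / ((k : ℝ) + 1)))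

/-- enclosing balls at the boundary points -/
def S_OB : Prop := ∀ (k : ℕ) (K : Set (E k)), PosCurved K → 1 ≤ k → ∀ x ∈ frontier K,
  ∃ (R : ℝ) (u : E k), 0 < R ∧ ‖u‖ = 1 ∧ K ⊆ Metric.closedBall (x - R • u) R

/-- uniform enclosing balls on a portion of the boundary -/
def S_BA : Prop := ∀ (k : ℕ) (K : Set (E k)), IsBody K → 1 ≤ k →
  (∀ x ∈ frontier K, ∃ (R : ℝ) (u : E k), 0 < R ∧ ‖u‖ = 1 ∧ K ⊆ Metric.closedBall (x - R • u) R) →
  ∃ (R : ℝ) (x0 : E k) (ρ : ℝ), 0 < R ∧ x0 ∈ frontier K ∧ 0 < ρ ∧ ∀ x ∈ frontier K, dist x x0 < ρ →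
    ∃ u : E k, ‖u‖ = 1 ∧ K ⊆ Metric.closedBall (x - R • u) R

/-- volume of a cap of a ball -/
def S_BC : Prop := ∀ (k : ℕ) (R : ℝ), 1 ≤ k → 0 < R → ∃ C : ℝ, 0 < C ∧ ∀ (x u : E k), ‖u‖ = 1 →
  ∀ h : ℝ, 0 < h → h ≤ R →
    volume {z : E k | z ∈ Metric.closedBall (x - R • u) R ∧ inner ℝ u x - h ≤ inner ℝ u z} ≤
      ENNReal.ofReal (C * h ^ (((k : ℝ) + 1) / 2))

/-- volume of a layer at a portion of the boundary -/
def S_LAY : Prop := ∀ (V : Type) [NormedAddCommGroup V] [NormedSpace ℝ V] [FiniteDimensional ℝ V]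
  [MeasureSpace V] [BorelSpace V] [(volume : Measure V).IsAddHaarMeasure] (K : Set V), IsBody K →
  1 ≤ finrank ℝ V → ∀ x0 ∈ frontier K, ∀ ρ : ℝ, 0 < ρ → ∃ c h0 : ℝ, 0 < c ∧ 0 < h0 ∧
    ∀ h : ℝ, 0 < h → h ≤ h0 →
      ENNReal.ofReal (c * h) ≤ volume {z | z ∈ K ∧ ∃ x ∈ frontier K, dist x x0 < ρ ∧ dist z x ≤ h}

/-- lower bound for the wet part of a positively curved body -/
def S_FL : Prop := ∀ (k : ℕ) (K : Set (E k)), PosCurved K → 1 ≤ k → ∃ c s0 : ℝ, 0 < c ∧ 0 < s0 ∧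
  ∀ s : ℝ, 0 < s → s ≤ s0 →
    ENNReal.ofReal (c * s ^ (2 / ((k : ℝ) + 1))) ≤ volume (wet K (ENNReal.ofReal s))

/-- balls are positively curved -/
def S_BALL : Prop := ∀ k : ℕ, 1 ≤ k → PosCurved (Metric.closedBall (0 : E k) 1)

/-- products of bodies are bodies, and the instances on the product space -/
def S_PB : Prop := ∀ (m : ℕ) (d : Fin m → ℕ), 1 ≤ m → (∀ i, 1 ≤ d i) →
  ∀ K : ∀ i, Set (E (d i)), (∀ i, IsBody (K i)) →
    IsBody (Set.pi univ K) ∧ finrank ℝ (∀ i, E (d i)) = ∑ i, d i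

/-- comparison of the wet parts of two products -/
def S_CMP : Prop := ∀ (m : ℕ) (d : Fin m → ℕ), 1 ≤ m → (∀ i, 1 ≤ d i) →
  ∀ K L : ∀ i, Set (E (d i)), (∀ i, PosCurved (K i)) → (∀ i, PosCurved (L i)) →
    Doubling (Set.pi univ K) ∧ ∃ A : ℝ, 0 < A ∧ ∀ t : ℝ, 0 < t →
      volume (wet (Set.pi univ K) (ENNReal.ofReal t)) ≤
        ENNReal.ofReal A * volume (wet (Set.pi univ L) (ENNReal.ofReal t))

/-- the final statement -/
def S_MAIN : Prop := ∀ (m : ℕ) (d : Fin m → ℕ), 1 ≤ m → (∀ i, 1 ≤ d i) →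
  ∀ K : ∀ i, Set (E (d i)), (∀ i, PosCurved (K i)) →
    (∀ j < ∑ i, d i, Comparable (fun n => meanFaces (Set.pi univ K) n j)
      (fun n => meanFaces (Set.pi univ fun i => Metric.closedBall (0 : E (d i)) 1) n j)) ∧
    Comparable (fun n => volume (Set.pi univ K) - meanVol (Set.pi univ K) n)
      (fun n => volume (Set.pi univ fun i => Metric.closedBall (0 : E (d i)) 1) -
        meanVol (Set.pi univ fun i => Metric.closedBall (0 : E (d i)) 1) n)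

end Pool.Agent.W829.RP
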