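import Pool.Agent.W829.RP.Defs

/-!
Assembly of the final statement of the RP project (problem MP_5ec613_pr) from its parts.
-/

set_option autoImplicit false

open MeasureTheory Set Module
open scoped ENNReal

namespace Pool.Agent.W829.RP

/-! ### The relation `Comparable` -/

theorem Comparable.symm {a b : ℕ → ℝ≥0∞} (h : Comparable a b) : Comparable b a := by
  obtain ⟨c, C, hc, hC, n0, h⟩ := h
  refine ⟨C⁻¹, c⁻¹, inv_pos.2 hC, inv_pos.2 hc, n0, fun n hn => ?_⟩
  obtain ⟨h1, h2⟩ := h n hn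
  constructor
  · calc ENNReal.ofReal C⁻¹ * a n ≤ ENNReal.ofReal C⁻¹ * (ENNReal.ofReal C * b n) := by gcongr
      _ = b n := by
        rw [← mul_assoc, ← ENNReal.ofReal_mul (by positivity), inv_mul_cancel₀ hC.ne']
        simp
  · calc b n = ENNReal.ofReal c⁻¹ * (ENNReal.ofReal c * b n) := by
          rw [← mul_assoc, ← ENNReal.ofReal_mul (by positivity), inv_mul_cancel₀ hc.ne']
          simp
      _ ≤ ENNReal.ofReal c⁻¹ * a n := by gcongr

theorem Comparable.trans {a b e : ℕ → ℝ≥0∞} (h : Comparable a b) (h' : Comparable b e) :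
    Comparable a e := by
  obtain ⟨c, C, hc, hC, n0, h⟩ := h
  obtain ⟨c', C', hc', hC', n0', h'⟩ := h'
  refine ⟨c * c', C * C', by positivity, by positivity, max n0 n0', fun n hn => ?_⟩
  obtain ⟨h1, h2⟩ := h n (le_trans (le_max_left _ _) hn)
  obtain ⟨h3, h4⟩ := h' n (le_trans (le_max_right _ _) hn)
  constructor
  · calc ENNReal.ofReal (c * c') * e n = ENNReal.ofReal c * (ENNReal.ofReal c' * e n) := by
          rw [ENNReal.ofReal_mul hc.le, mul_assoc]
      _ ≤ ENNReal.ofReal c * b n := by gcongr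
      _ ≤ a n := h1
  · calc a n ≤ ENNReal.ofReal C * b n := h2
      _ ≤ ENNReal.ofReal C * (ENNReal.ofReal C' * e n) := by gcongr
      _ = ENNReal.ofReal (C * C') * e n := by rw [ENNReal.ofReal_mul hC.le, mul_assoc]

theorem Comparable.nmul {a b : ℕ → ℝ≥0∞} (h : Comparable a b) :
    Comparable (fun n => (n : ℝ≥0∞) * a n) (fun n => (n : ℝ≥0∞) * b n) := by
  obtain ⟨c, C, hc, hC, n0, h⟩ := h
  refine ⟨c, C, hc, hC, n0, fun n hn => ?_⟩
  obtain ⟨h1, h2⟩ := h n hn
  constructor
  · calc ENNReal.ofReal c * (n * b n) = n * (ENNReal.ofReal c * b n) := by ring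
      _ ≤ n * a n := by gcongr
  · calc n * a n ≤ n * (ENNReal.ofReal C * b n) := by gcongr
      _ = ENNReal.ofReal C * (n * b n) := by ring

section General

variable {V : Type} [NormedAddCommGroup V] [NormedSpace ℝ V]

theorem wet_mono [MeasureSpace V] (K : Set V) {s t : ℝ≥0∞} (h : s ≤ t) : wet K s ⊆ wet K t :=
  fun _ hx => ⟨hx.1, lt_of_lt_of_le hx.2 h⟩

theorem body_vol [FiniteDimensional ℝ V] [MeasureSpace V] [BorelSpace V]
    [(volume : Measure V).IsAddHaarMeasure] {K : Set V} (hK : IsBody K) :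
    volume K ≠ 0 ∧ volume K ≠ ⊤ :=
  ⟨(Measure.measure_pos_of_nonempty_interior _ hK.2.2).ne', hK.2.1.measure_lt_top.ne⟩

/-- `(1 - 1/n)^n` is bounded below. -/
theorem pow_lower (n : ℕ) (hn : 2 ≤ n) : ENNReal.ofReal (Real.exp (-2)) ≤ (1 - (n : ℝ≥0∞)⁻¹) ^ n := by
  have hn' : (2 : ℝ) ≤ n := by exact_mod_cast hn
  have h0 : (0 : ℝ) < n := by linarith
  have h1 : (1 - (n : ℝ≥0∞)⁻¹) = ENNReal.ofReal (1 - (n : ℝ)⁻¹) := by
    rw [ENNReal.ofReal_sub _ (by positivity), ENNReal.ofReal_one, ENNReal.ofReal_inv_of_pos h0,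
      ENNReal.ofReal_natCast]
  have h2 : (0 : ℝ) < 1 - (n : ℝ)⁻¹ := by
    have : (n : ℝ)⁻¹ < 1 := inv_lt_one_of_one_lt₀ (by linarith)
    linarith
  rw [h1, ← ENNReal.ofReal_pow h2.le]
  apply ENNReal.ofReal_le_ofReal
  have h3 : Real.exp (-2 / n) ≤ 1 - (n : ℝ)⁻¹ := by
    have h4 : (1 - (n : ℝ)⁻¹)⁻¹ ≤ Real.exp (2 / n) := by
      calc (1 - (n : ℝ)⁻¹)⁻¹ ≤ 2 / n + 1 := by
            rw [inv_eq_one_div, div_le_iff₀ h2]
            have : (2 / (n : ℝ) + 1) * (1 - (n : ℝ)⁻¹) = 1 + (n : ℝ)⁻¹ * (1 - 2 * (n : ℝ)⁻¹) := by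
              field_simp
              ring
            rw [this]
            have h5 : (n : ℝ)⁻¹ ≤ 2⁻¹ := inv_anti₀ (by norm_num) hn'
            have h6 : 0 ≤ (n : ℝ)⁻¹ * (1 - 2 * (n : ℝ)⁻¹) := by
              apply mul_nonneg (by positivity)
              linarith
            linarith
        _ ≤ Real.exp (2 / n) := Real.add_one_le_exp _
    have h5 : Real.exp (-2 / n) = (Real.exp (2 / n))⁻¹ := by
      rw [neg_div, Real.exp_neg]
    rw [h5]
    exact inv_le_of_inv_le₀ h2 h4
  calc Real.exp (-2) = (Real.exp (-2 / n)) ^ n := by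
        rw [← Real.exp_nat_mul]
        congr 1
        field_simp
    _ ≤ _ := pow_le_pow_left₀ (Real.exp_pos _).le h3 n

variable [FiniteDimensional ℝ V] [MeasureSpace V] [BorelSpace V]
  [(volume : Measure V).IsAddHaarMeasure]

/-- The face numbers and the missed volume in terms of the wet part. -/
theorem general (hLOW : S_LOW) (hDEF : S_DEF) (hEFR : S_EFR) (hGP : S_GP) (hDET : S_DET)
    (hUP : S_UP) {K : Set V} (hK : IsBody K) (hD : Doubling K) (h1 : 1 ≤ finrank ℝ V) :
    (∀ j < finrank ℝ V, Comparable (fun n => meanFaces K n j)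
      (fun n => (n : ℝ≥0∞) * volume (wet K (volume K / n)))) ∧
    Comparable (fun n => volume K - meanVol K n) (fun n => volume (wet K (volume K / n))) := by
  obtain ⟨hv0, hvt⟩ := body_vol hK
  have hvr : 0 < (volume K).toReal := ENNReal.toReal_pos hv0 hvt
  have hvof : volume K = ENNReal.ofReal (volume K).toReal := (ENNReal.ofReal_toReal hvt).symm
  -- monotonicity
  have hmono : ∀ n : ℕ, wet K (volume K / (n + 1 : ℕ)) ⊆ wet K (volume K / n) := by
    intro n
    apply wet_mono
    gcongr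
    omega
  -- lower bound of the missed volume
  have hlow : ∀ n : ℕ, 2 ≤ n → ENNReal.ofReal (Real.exp (-2)) * volume (wet K (volume K / n)) ≤
      miss K n := by
    intro n hn
    have hn0 : (n : ℝ≥0∞) ≠ 0 := by
      simp only [ne_eq, Nat.cast_eq_zero]
      omega
    have hle : volume K / n ≤ volume K := by
      apply ENNReal.div_le_of_le_mul
      calc volume K = volume K * 1 := (mul_one _).symm
        _ ≤ volume K * n := by
          gcongr
          exact_mod_cast (by omega : 1 ≤ n)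
    have h := hLOW V K hK n (volume K / n) hle
    have h2 : volume K / n / volume K = (n : ℝ≥0∞)⁻¹ := by
      rw [ENNReal.div_eq_inv_mul, ENNReal.div_eq_inv_mul, mul_comm (n : ℝ≥0∞)⁻¹, ← mul_assoc,
        ENNReal.inv_mul_cancel hv0 hvt, one_mul]
    rw [h2] at h
    refine le_trans ?_ h
    gcongr
    exact pow_lower n hn
  -- upper bound for the vertices
  obtain ⟨C0, n0, hC0, hup0⟩ := hUP V K hK hD 0 (by omega)
  -- upper bound of the missed volume
  have hmissup : ∀ n : ℕ, n0 ≤ n →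
      miss K n ≤ ENNReal.ofReal (C0 * (volume K).toReal) * volume (wet K (volume K / n)) := by
    intro n hn
    have h := (hEFR V K hK n).trans (hup0 (n + 1) (by omega))
    have h3 : (n : ℝ≥0∞) + 1 = ((n + 1 : ℕ) : ℝ≥0∞) := by push_cast; rfl
    rw [h3] at h
    have hne : ((n + 1 : ℕ) : ℝ≥0∞) ≠ 0 := by
      simp
    have hnt : ((n + 1 : ℕ) : ℝ≥0∞) ≠ ⊤ := ENNReal.natCast_ne_top _
    have h4 : ((n + 1 : ℕ) : ℝ≥0∞) * (miss K n / volume K) ≤ ((n + 1 : ℕ) : ℝ≥0∞) *
        (ENNReal.ofReal C0 * volume (wet K (volume K / (n + 1 : ℕ)))) := by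
      refine h.trans (le_of_eq ?_)
      ring
    rw [ENNReal.mul_le_mul_iff_right hne hnt] at h4
    have h5 : miss K n ≤ (ENNReal.ofReal C0 * volume (wet K (volume K / (n + 1 : ℕ)))) * volume K := by
      rwa [ENNReal.div_le_iff hv0 hvt] at h4
    calc miss K n ≤ (ENNReal.ofReal C0 * volume (wet K (volume K / (n + 1 : ℕ)))) * volume K := h5
      _ ≤ (ENNReal.ofReal C0 * volume (wet K (volume K / n))) * volume K := by
        gcongr
        exact hmono n
      _ = ENNReal.ofReal (C0 * (volume K).toReal) * volume (wet K (volume K / n)) := by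
        rw [ENNReal.ofReal_mul hC0.le, ENNReal.ofReal_toReal hvt]
        ring
  -- lower bound for the vertices
  have hvlow : ∀ n : ℕ, 3 ≤ n → ENNReal.ofReal (Real.exp (-2) / (volume K).toReal) *
      (n * volume (wet K (volume K / n))) ≤ meanFaces K n 0 := by
    intro n hn
    obtain ⟨k, rfl⟩ : ∃ k, n = k + 1 := ⟨n - 1, by omega⟩
    have h := hEFR V K hK k
    have h3 : (k : ℝ≥0∞) + 1 = ((k + 1 : ℕ) : ℝ≥0∞) := by push_cast; rfl
    rw [h3] at h
    refine le_trans ?_ h
    have h4 := hlow k (by omega)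
    calc ENNReal.ofReal (Real.exp (-2) / (volume K).toReal) *
          ((k + 1 : ℕ) * volume (wet K (volume K / (k + 1 : ℕ))))
        ≤ ENNReal.ofReal (Real.exp (-2) / (volume K).toReal) *
          ((k + 1 : ℕ) * volume (wet K (volume K / k))) := by
          gcongr
          exact hmono k
      _ = ((k + 1 : ℕ) : ℝ≥0∞) * ((ENNReal.ofReal (Real.exp (-2)) *
            volume (wet K (volume K / k))) / volume K) := by
          rw [ENNReal.ofReal_div_of_pos hvr, ENNReal.ofReal_toReal hvt]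
          simp only [div_eq_mul_inv]
          ring
      _ ≤ ((k + 1 : ℕ) : ℝ≥0∞) * (miss K k / volume K) := by
          gcongr
  refine ⟨fun j hj => ?_, ?_⟩
  · obtain ⟨C, n1, hC, hup⟩ := hUP V K hK hD j hj
    refine ⟨Real.exp (-2) / (volume K).toReal / (j + 1), C, by positivity, hC,
      max n1 (max 3 (finrank ℝ V + 1)), fun n hn => ?_⟩
    have hn1 : n1 ≤ n := le_trans (le_max_left _ _) hn
    have hn3 : 3 ≤ n := le_trans (le_trans (le_max_left _ _) (le_max_right _ _)) hn
    have hnD : finrank ℝ V + 1 ≤ n := le_trans (le_trans (le_max_right _ _) (le_max_right _ _)) hn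
    constructor
    · have h2 : meanFaces K n 0 ≤ ((j + 1 : ℕ) : ℝ≥0∞) * meanFaces K n j := by
        unfold meanFaces
        rw [← lintegral_const_mul' _ _ (ENNReal.natCast_ne_top _)]
        apply lintegral_mono_ae
        filter_upwards [hGP V K hK n] with ω hω
        have h3 := hDET V n j hj hnD ω hω
        have h4 : ((faces 0 (hull ω)).encard : ℝ≥0∞) ≤
            (((j + 1 : ℕ) * (faces j (hull ω)).encard : ℕ∞) : ℝ≥0∞) :=
          ENat.toENNReal_mono h3
        rw [ENat.toENNReal_mul] at h4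
        exact h4
      have h3 := (hvlow n hn3).trans h2
      have hj0 : ((j + 1 : ℕ) : ℝ≥0∞) ≠ 0 := by simp
      have hjt : ((j + 1 : ℕ) : ℝ≥0∞) ≠ ⊤ := ENNReal.natCast_ne_top _
      have h4 : ((j + 1 : ℕ) : ℝ≥0∞) * (ENNReal.ofReal (Real.exp (-2) / (volume K).toReal / (j + 1)) *
          (n * volume (wet K (volume K / n)))) ≤ ((j + 1 : ℕ) : ℝ≥0∞) * meanFaces K n j := by
        refine le_trans (le_of_eq ?_) h3
        rw [← mul_assoc]
        congr 1
        rw [← ENNReal.ofReal_natCast, ← ENNReal.ofReal_mul (by positivity)]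
        congr 1
        push_cast
        field_simp
      rwa [ENNReal.mul_le_mul_iff_right hj0 hjt] at h4
    · refine (hup n hn1).trans (le_of_eq ?_)
      ring
  · refine ⟨Real.exp (-2), C0 * (volume K).toReal, Real.exp_pos _, by positivity, max 2 n0,
      fun n hn => ?_⟩
    simp only [hDEF V K hK n]
    exact ⟨hlow n (le_trans (le_max_left _ _) hn), hmissup n (le_trans (le_max_right _ _) hn)⟩

end General

/-- One half of the comparison of the wet parts at the levels `vol K / n` and `vol L / n`. -/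
theorem cmp_half {V : Type} [NormedAddCommGroup V] [NormedSpace ℝ V]
    [FiniteDimensional ℝ V] [MeasureSpace V] [BorelSpace V]
    [(volume : Measure V).IsAddHaarMeasure] {K L : Set V} (hK : IsBody K) (hL : IsBody L)
    (hDL : Doubling L) {A : ℝ} (hA : 0 < A)
    (h : ∀ t : ℝ, 0 < t → volume (wet K (ENNReal.ofReal t)) ≤
        ENNReal.ofReal A * volume (wet L (ENNReal.ofReal t))) :
    ∃ C : ℝ, 0 < C ∧ ∀ n : ℕ, 1 ≤ n →
      volume (wet K (volume K / n)) ≤ ENNReal.ofReal C * volume (wet L (volume L / n)) := by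
  obtain ⟨hk0, hkt⟩ := body_vol hK
  obtain ⟨hl0, hlt⟩ := body_vol hL
  have hkr : 0 < (volume K).toReal := ENNReal.toReal_pos hk0 hkt
  have hlr : 0 < (volume L).toReal := ENNReal.toReal_pos hl0 hlt
  obtain ⟨B, b, hB, hb, hd⟩ := hDL
  set r : ℝ := max 1 ((volume K).toReal / (volume L).toReal) with hr
  have hr1 : 1 ≤ r := le_max_left _ _
  have hr0 : 0 < r := lt_of_lt_of_le one_pos hr1
  refine ⟨A * (B * r ^ b), by positivity, fun n hn => ?_⟩
  have hn0 : (0 : ℝ) < n := by exact_mod_cast hn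
  have e1 : volume K / n = ENNReal.ofReal ((volume K).toReal / n) := by
    rw [ENNReal.ofReal_div_of_pos hn0, ENNReal.ofReal_toReal hkt, ENNReal.ofReal_natCast]
  have e2 : volume L / n = ENNReal.ofReal ((volume L).toReal / n) := by
    rw [ENNReal.ofReal_div_of_pos hn0, ENNReal.ofReal_toReal hlt, ENNReal.ofReal_natCast]
  rw [e1, e2]
  calc volume (wet K (ENNReal.ofReal ((volume K).toReal / n)))
      ≤ ENNReal.ofReal A * volume (wet L (ENNReal.ofReal ((volume K).toReal / n))) :=
        h _ (by positivity)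
    _ ≤ ENNReal.ofReal A * volume (wet L (ENNReal.ofReal (r * ((volume L).toReal / n)))) := by
        gcongr
        apply wet_mono
        apply ENNReal.ofReal_le_ofReal
        have h2 : (volume K).toReal / (volume L).toReal ≤ r := le_max_right _ _
        rw [div_le_iff₀ hlr] at h2
        calc (volume K).toReal / n ≤ (r * (volume L).toReal) / n := by gcongr
          _ = r * ((volume L).toReal / n) := by ring
    _ ≤ ENNReal.ofReal A * (ENNReal.ofReal (B * r ^ b) *
          volume (wet L (ENNReal.ofReal ((volume L).toReal / n)))) := by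
        gcongr
        exact hd _ _ (by positivity) hr1
    _ = _ := by
        rw [ENNReal.ofReal_mul hA.le, mul_assoc]

/-- The final statement from the parts. -/
theorem main_of (hLOW : S_LOW) (hDEF : S_DEF) (hEFR : S_EFR) (hGP : S_GP) (hDET : S_DET)
    (hUP : S_UP) (hCMP : S_CMP) (hPB : S_PB) (hBALL : S_BALL) : S_MAIN := by
  intro m d hm hd K hK
  set Z : ∀ i, Set (E (d i)) := fun i => Metric.closedBall (0 : E (d i)) 1 with hZ
  have hZc : ∀ i, PosCurved (Z i) := fun i => hBALL (d i) (hd i)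
  obtain ⟨hKb, hfin⟩ := hPB m d hm hd K (fun i => (hK i).1)
  obtain ⟨hZb, -⟩ := hPB m d hm hd Z (fun i => (hZc i).1)
  obtain ⟨hKd, A, hA, hA'⟩ := hCMP m d hm hd K Z hK hZc
  obtain ⟨hZd, B, hB, hB'⟩ := hCMP m d hm hd Z K hZc hK
  have h1 : 1 ≤ finrank ℝ (∀ i, E (d i)) := by
    rw [hfin]
    calc 1 ≤ d ⟨0, by omega⟩ := hd _
      _ ≤ ∑ i, d i := Finset.single_le_sum (f := d) (fun i _ => Nat.zero_le _) (Finset.mem_univ _)
  obtain ⟨gK1, gK2⟩ := general hLOW hDEF hEFR hGP hDET hUP hKb hKd h1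
  obtain ⟨gZ1, gZ2⟩ := general hLOW hDEF hEFR hGP hDET hUP hZb hZd h1
  obtain ⟨C1, hC1, hc1⟩ := cmp_half hKb hZb hZd hA hA'
  obtain ⟨C2, hC2, hc2⟩ := cmp_half hZb hKb hKd hB hB'
  have hW : Comparable (fun n => volume (wet (Set.pi univ K) (volume (Set.pi univ K) / n)))
      (fun n => volume (wet (Set.pi univ Z) (volume (Set.pi univ Z) / n))) := by
    refine ⟨C2⁻¹, C1, by positivity, hC1, 1, fun n hn => ⟨?_, hc1 n hn⟩⟩
    calc ENNReal.ofReal C2⁻¹ * volume (wet (Set.pi univ Z) (volume (Set.pi univ Z) / n))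
        ≤ ENNReal.ofReal C2⁻¹ * (ENNReal.ofReal C2 *
          volume (wet (Set.pi univ K) (volume (Set.pi univ K) / n))) := by
          gcongr
          exact hc2 n hn
      _ = _ := by
          rw [← mul_assoc, ← ENNReal.ofReal_mul (by positivity), inv_mul_cancel₀ hC2.ne']
          simp
  refine ⟨fun j hj => ?_, ?_⟩
  · rw [← hfin] at hj
    exact (gK1 j hj).trans ((Comparable.nmul hW).trans (gZ1 j hj).symm)
  · exact gK2.trans (hW.trans gZ2.symm)

end Pool.Agent.W829.RP
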